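import Pool.Agent.H.MP_60be70_gt.Neg

open Set Filter Function Topology Pool.Agent.H.MP_60be70_gt

namespace Pool.Agent.Results.MP_60be70_gt.PrescribedPowers

theorem exists_col (k m : ℕ) : ∃ col : KK → Cl k m, Generic col := by
  have : Nonempty (Cl k m) := ⟨Sum.inl none⟩
  exact exists_generic_coloring (Cl k m)

/-- For all `1 ≤ k ≤ m ≤ ω` there is a regular Hausdorff space `X` such that, for every positive
integer `n`, the power `X ^ n` is paracompact iff `n < m` and is Lindelöf iff `n < k`. -/
theorem result : ∀ k m : ℕ∞, 1 ≤ k → k ≤ m →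
    ∃ (X : Type) (_ : TopologicalSpace X), T3Space X ∧ ∀ n : ℕ, 1 ≤ n →
      ((ParacompactSpace (Fin n → X) ↔ (n : ℕ∞) < m) ∧
        (LindelofSpace (Fin n → X) ↔ (n : ℕ∞) < k)) := by
  intro k m hk hkm
  induction k using ENat.recTopCoe with
  | top =>
    have hm : m = ⊤ := top_le_iff.1 hkm
    subst hm
    refine ⟨PUnit, inferInstance, inferInstance, fun n _ => ⟨?_, ?_⟩⟩
    · exact iff_of_true inferInstance (ENat.natCast_lt_top n)
    · exact iff_of_true inferInstance (ENat.natCast_lt_top n)
  | coe k =>
    have hk0 : 0 < k := by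
      have : (1 : ℕ∞) ≤ (k : ℕ∞) := hk
      exact_mod_cast this
    induction m using ENat.recTopCoe with
    | top =>
      obtain ⟨col, hcol⟩ := exists_col k 0
      refine ⟨XX col, inferInstance, inferInstance, fun n hn => ⟨?_, ?_⟩⟩
      · exact iff_of_true (paracompact_pow hcol hk0 (Or.inl rfl)) (ENat.natCast_lt_top n)
      · rw [Nat.cast_lt]
        refine ⟨fun h => ?_, fun h => lindelof_pow hcol (Or.inl rfl) h⟩
        by_contra hcon
        exact not_lindelof_pow hcol hk0 (not_lt.1 hcon) h
    | coe m =>
      have hkm' : k ≤ m := by exact_mod_cast hkm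
      by_cases hm : 2 ≤ m
      · obtain ⟨col, hcol⟩ := exists_col k m
        refine ⟨XX col, inferInstance, inferInstance, fun n hn => ⟨?_, ?_⟩⟩
        · rw [Nat.cast_lt]
          refine ⟨fun h => ?_, fun h => paracompact_pow hcol hk0 (Or.inr h)⟩
          by_contra hcon
          exact not_paracompact_pow hcol hm (not_lt.1 hcon) h
        · rw [Nat.cast_lt]
          refine ⟨fun h => ?_, fun h => lindelof_pow hcol (Or.inr (h.trans_le hkm')) h⟩
          by_contra hcon
          exact not_lindelof_pow hcol hk0 (not_lt.1 hcon) h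
      · have hm1 : m = 1 := by omega
        have hk1 : k = 1 := by omega
        subst hm1
        subst hk1
        obtain ⟨col, hcol⟩ := exists_col 2 2
        have h1 : ¬ ParacompactSpace (Fin 2 → XX col) := not_paracompact_pow hcol le_rfl le_rfl
        have h2 : ¬ LindelofSpace (Fin 2 → XX col) := not_lindelof_pow hcol (by norm_num) le_rfl
        refine ⟨Fin 2 → XX col, inferInstance, inferInstance, fun n hn => ?_⟩
        have hemb : IsClosedEmbedding
            (fun (y : Fin 2 → XX col) => (fun _ : Fin n => y)) := by
          let j₀ : Fin n := ⟨0, by omega⟩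
          have hc : Continuous (fun (y : Fin 2 → XX col) => (fun _ : Fin n => y)) :=
            continuous_pi fun _ => continuous_id
          have hp : Continuous (fun (z : Fin n → (Fin 2 → XX col)) => z j₀) := continuous_apply j₀
          have hli : Function.LeftInverse (fun (z : Fin n → (Fin 2 → XX col)) => z j₀)
              (fun (y : Fin 2 → XX col) => (fun _ : Fin n => y)) := fun y => rfl
          exact hli.isClosedEmbedding hp hc
        have hnlt : ¬ ((n : ℕ∞) < ((1 : ℕ) : ℕ∞)) := by
          rw [Nat.cast_lt]; omega
        refine ⟨iff_of_false (fun h => h1 ?_) hnlt, iff_of_false (fun h => h2 ?_) hnlt⟩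
        · exact hemb.paracompactSpace
        · exact hemb.LindelofSpace

end Pool.Agent.Results.MP_60be70_gt.PrescribedPowers
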